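import Pool.Agent.helper68.PL.SpecF

/-!
# pl:fOUT (helper14): estimates at the target
-/

set_option autoImplicit false

open Complex Metric Set Filter Topology MeasureTheory
open Pool.Agent.helper98.ILF
open WP (it)
open HY (UD T S hd UN RM)
open PM

noncomputable section

namespace PL

lemma fOUT_it_diff (f : Polynomial ℂ) (i : ℕ) : Differentiable ℂ (it f i) := by
  induction i with
  | zero => exact differentiable_id
  | succ i ih =>
    have h : it f (i + 1) = fun z => f.eval (it f i z) := by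
      funext z
      simp only [it, Function.iterate_succ_apply']
    rw [h]
    exact f.differentiable.comp ih

lemma fOUT_it_mem {f : Polynomial ℂ} (hJ : ∀ z : ℂ, f.eval z ∈ JJ f ↔ z ∈ JJ f) {x : ℂ} (hx : x ∈ JJ f) (i : ℕ) :
    it f i x ∈ JJ f := by
  induction i with
  | zero => exact hx
  | succ i ih =>
    have h : it f (i + 1) x = f.eval (it f i x) := by
      simp only [it, Function.iterate_succ_apply']
    rw [h, hJ]
    exact ih

lemma fOUT_T_cont {a b : ℂ} (ha : ‖a‖ < 1) (hb : ‖b‖ < 1) : ContinuousAt (fun z : ℂ × ℂ => ‖T z.1 z.2‖) (a, b) := by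
  have hne : (1 : ℂ) - (starRingEnd ℂ) a * b ≠ 0 := by
    intro h0
    have h1 : (starRingEnd ℂ) a * b = 1 := by linear_combination -h0
    have h2 : ‖(starRingEnd ℂ) a * b‖ < 1 := by
      rw [norm_mul, RCLike.norm_conj]
      calc ‖a‖ * ‖b‖ ≤ ‖a‖ * 1 := mul_le_mul_of_nonneg_left hb.le (norm_nonneg _)
        _ < 1 := by rw [mul_one]; exact ha
    rw [h1, norm_one] at h2
    exact lt_irrefl _ h2
  unfold T
  refine ContinuousAt.norm (ContinuousAt.div ?_ ?_ hne)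
  · exact (continuous_snd.sub continuous_fst).continuousAt
  · exact (continuous_const.sub ((Complex.continuous_conj.comp continuous_fst).mul continuous_snd)).continuousAt

/-- the linear bound from the bound of the derivative. -/
lemma fOUT_lin {φ : ℂ → ℂ} {B : ℝ} (hd : DifferentiableOn ℂ φ UD) (hB : ∀ u : ℂ, ‖u‖ ≤ 1 / 2 → ‖deriv φ u‖ ≤ B) {u : ℂ} (hu : ‖u‖ ≤ 1 / 2) :
    ‖φ u - φ 0‖ ≤ B * ‖u‖ := by
  have h1 : ∀ v ∈ closedBall (0 : ℂ) (1 / 2), DifferentiableAt ℂ φ v := by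
    intro v hv
    refine hd.differentiableAt (isOpen_ball.mem_nhds ?_)
    rw [mem_closedBall, dist_zero_right] at hv
    rw [mem_ball, dist_zero_right]
    linarith
  have h2 := (convex_closedBall (0 : ℂ) (1 / 2)).norm_image_sub_le_of_norm_deriv_le (f := φ) (C := B) h1
    (fun v hv => hB v (by rwa [mem_closedBall, dist_zero_right] at hv)) (x := 0) (y := u)
    (by simp) (by rwa [mem_closedBall, dist_zero_right])
  rwa [sub_zero] at h2

theorem fOUT (hFRS : FRS_stmt) (hTLS : TLS_stmt) (hTDF : TDF_stmt) (hTPM : TPM_stmt) (hTPT : TPT_stmt) (hTKO : TKO_stmt)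
    (hVCF : VCF_stmt) : fOUT_stmt := by
  obtain ⟨K0, -, -, hρ⟩ := hTKO
  obtain ⟨C1, hC1, hKO⟩ := hρ (1 / 2) (by norm_num) (by norm_num)
  refine ⟨C1, hC1, ?_⟩
  intro f R δ e₀ d₀ k₀ hST x hx U H w χ G p q c κ ε hD hε
  have hER : ER f R := ⟨hST.R1, hST.esc⟩
  obtain ⟨-, -, -, hΩo, -, -, hK, -⟩ := hFRS f R δ e₀ d₀ k₀ hST x hx U H χ hD.fr
  obtain ⟨hGd, -, hGm, -⟩ := hTLS f R δ e₀ d₀ k₀ hST x hx U H χ hD.fr w G hD.tl
  have hGp : ‖G p‖ < 1 := by
    have := hGm hD.pm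
    rwa [UD, mem_ball, dist_zero_right] at this
  have hGq : ‖G q‖ < 1 := by
    have := hGm hD.qm
    rwa [UD, mem_ball, dist_zero_right] at this
  have hnear : ∀ᶠ z in 𝓝 (G p, G q), ‖T z.1 z.2‖ < ε :=
    (fOUT_T_cont hGp hGq).eventually_lt_const hD.near
  obtain ⟨η0, hη0, hT⟩ := Metric.eventually_nhds_iff.1 hnear
  obtain ⟨η, hη, hηη0, hηG⟩ : ∃ η : ℝ, 0 < η ∧ η ≤ η0 ∧ η ≤ (1 - ‖G p‖) / 2 :=
    ⟨min η0 ((1 - ‖G p‖) / 2), lt_min hη0 (by linarith), min_le_left _ _, min_le_right _ _⟩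
  -- the radius
  have hGc : ContinuousAt G p := (hGd.differentiableAt (hΩo.mem_nhds hD.pm)).continuousAt
  have hev : ∀ᶠ ζ in 𝓝 p, ζ ∈ χ '' UD ∧ dist (G ζ) (G p) < η / 2 :=
    (hΩo.eventually_mem hD.pm).and (Metric.continuousAt_iff'.1 hGc (η / 2) (half_pos hη))
  obtain ⟨r, hr, hrs⟩ := Metric.nhds_basis_closedBall.eventually_iff.1 hev
  have hρ1 : 0 < 1 - ((1 + ‖G p‖) / 2) ^ 2 := by
    have h1 : (1 + ‖G p‖) / 2 < 1 := by linarith
    have h2 : 0 ≤ (1 + ‖G p‖) / 2 := by positivity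
    nlinarith
  have hρ2 : 1 - ((1 + ‖G p‖) / 2) ^ 2 ≤ 1 := by
    have := sq_nonneg ((1 + ‖G p‖) / 2)
    linarith
  set ρ : ℝ := (1 + ‖G p‖) / 2 with hρdef
  refine ⟨r, C1 / (1 - ρ ^ 2), hr, ?_, fun ζ hζ => (hrs (ball_subset_closedBall hζ)).1, ?_⟩
  · rw [le_div_iff₀ hρ1]
    linarith
  have e1 : ∀ᶠ j in (U : Filter ℕ), ∀ ζ ∈ closedBall p r, dist (G ζ) (GJ f R x (H j) (w j) ζ) < η / 2 := by
    have h1 := (tendstoLocallyUniformlyOn_iff_forall_isCompact hΩo).1 hD.tl.cv (closedBall p r)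
      (fun ζ hζ => (hrs hζ).1) (isCompact_closedBall p r)
    exact Metric.tendstoUniformlyOn_iff.1 h1 (η / 2) (half_pos hη)
  have e2 := hK (closedBall p r) (fun ζ hζ => (hrs hζ).1) (isCompact_closedBall p r)
  have e4 : ∀ᶠ j in (U : Filter ℕ), dist (cx (VC f R (H j - w j) (it f (w j) x)) (it f (w j) x) c) (G q) < η :=
    Metric.tendsto_nhds.1 hD.lim η hη
  filter_upwards [e1, e2, hD.mem, e4, hD.tl.le] with j j1 j2 j3 j4 j5
  intro ζ hζ
  have hζc : ζ ∈ closedBall p r := ball_subset_closedBall hζ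
  -- the target domain
  have hxw : it f (w j) x ∈ VK f R (H j - w j) := hST.Jv _ (fOUT_it_mem hST.Ji hx _) _
  have hxH : x ∈ VK f R (H j) := hST.Jv _ hx _
  obtain ⟨hDDV, hxwV, -, hVCeq, -, -, -, -⟩ := hVCF f R hST.deg hER (H j - w j) (it f (w j) x) hxw
  obtain ⟨-, -, -, -, -, -, hmaps, -⟩ := hVCF f R hST.deg hER (H j) x hxH
  have hVc : VC f R (H j - w j) c = VC f R (H j - w j) (it f (w j) x) := hVCeq c j3
  rw [hVc]
  set V : Set ℂ := VC f R (H j - w j) (it f (w j) x) with hV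
  obtain ⟨hVo, -, hTD⟩ := hTDF V hDDV
  obtain ⟨hRM, -, -, -, hcxd, hb, hrm⟩ := hTD (it f (w j) x) hxwV
  have hFm : ∀ ζ' ∈ closedBall p r, it f (w j) (PZ f R x (H j) ζ') ∈ V := fun ζ' hζ' => hmaps (w j) j5 (j2 ζ' hζ')
  have hGJ : ∀ ζ' ∈ closedBall p r, rm V (it f (w j) x) (GJ f R x (H j) (w j) ζ') = it f (w j) (PZ f R x (H j) ζ') := by
    intro ζ' hζ'
    exact (hb _ (hFm ζ' hζ')).2.1
  set z : ℂ := it f (w j) (PZ f R x (H j) ζ) with hz
  set y : ℂ := GJ f R x (H j) (w j) ζ with hy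
  have hzV : z ∈ V := hFm ζ hζc
  have hyUD : y ∈ UD := (hb _ hzV).1
  have hyp : dist y (G p) < η := by
    have h1 := j1 ζ hζc
    have h2 := (hrs hζc).2
    calc dist y (G p) ≤ dist y (G ζ) + dist (G ζ) (G p) := dist_triangle _ _ _
      _ < η / 2 + η / 2 := by
        rw [dist_comm y (G ζ)]
        exact add_lt_add h1 h2
      _ = η := by ring
  have hyρ : ‖y‖ ≤ ρ := by
    have h1 : ‖y‖ ≤ dist y (G p) + ‖G p‖ := by
      have := norm_le_norm_add_norm_sub' y (G p)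
      rw [dist_eq_norm]
      linarith
    rw [hρdef]
    linarith
  have hy2 : 1 - ρ ^ 2 ≤ 1 - ‖y‖ ^ 2 := by
    have h1 := norm_nonneg y
    nlinarith
  have hy3 : 1 - ‖y‖ ^ 2 ≤ 1 := by
    have := sq_nonneg ‖y‖
    linarith
  -- the distance
  have hpd0 : pd V z c = ‖T y (cx V (it f (w j) x) c)‖ := (hTPT V hDDV (it f (w j) x) hxwV z hzV c j3).2.2.2.2
  have hpd : pd V z c < ε := by
    rw [hpd0]
    refine hT (y := (y, cx V (it f (w j) x) c)) ?_
    rw [Prod.dist_eq, max_lt_iff]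
    exact ⟨hyp.trans_le hηη0, j4.trans_le hηη0⟩
  have hpdc : pd V c z < ε := by
    rw [(hTPT V hDDV c j3 z hzV z hzV).1]
    exact hpd
  have hpd2 : pd V c z ≤ 1 / 2 := hpdc.le.trans hε
  obtain ⟨hKO1, hKO2⟩ := hKO V hDDV c j3
  obtain ⟨-, hc1, hc2⟩ := hKO1 z hzV hpd2
  obtain ⟨hRMc, hcrc, -, -, -, hbc, -⟩ := hTD c j3
  obtain ⟨hzu, hzr, hzp, -⟩ := hbc z hzV
  have hcr0 : 0 < cr V c := hcrc
  -- the derivative
  have hder : deriv (fun z' => it f (w j) (PZ f R x (H j) z')) ζ =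
      deriv (rm V (it f (w j) x)) y * deriv (GJ f R x (H j) (w j)) ζ := by
    have hev2 : (fun z' => it f (w j) (PZ f R x (H j) z')) =ᶠ[𝓝 ζ]
        (fun z' => rm V (it f (w j) x) (GJ f R x (H j) (w j) z')) := by
      filter_upwards [isOpen_ball.mem_nhds hζ] with ζ' hζ'
      exact (hGJ ζ' (ball_subset_closedBall hζ')).symm
    rw [hev2.deriv_eq]
    have hF : DifferentiableAt ℂ (fun z' => it f (w j) (PZ f R x (H j) z')) ζ := by
      refine (fOUT_it_diff f (w j) _).comp ζ ?_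
      unfold PZ
      fun_prop
    have hG1 : DifferentiableAt ℂ (GJ f R x (H j) (w j)) ζ := by
      have h1 : DifferentiableAt ℂ (cx V (it f (w j) x)) (it f (w j) (PZ f R x (H j) ζ)) :=
        hcxd.differentiableAt (hVo.mem_nhds hzV)
      exact h1.comp ζ hF
    have hR1 : DifferentiableAt ℂ (rm V (it f (w j) x)) (GJ f R x (H j) (w j) ζ) :=
      hRM.dif.differentiableAt (isOpen_ball.mem_nhds hyUD)
    exact deriv_comp ζ hR1 hG1
  have hcrz : cr V z = ‖deriv (rm V (it f (w j) x)) y‖ * (1 - ‖y‖ ^ 2) := by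
    have h1 := ((hTPM V (it f (w j) x) (rm V (it f (w j) x)) hRM).2 y hyUD).1
    rwa [hGJ ζ hζc] at h1
  have hD0 : 0 ≤ ‖deriv (rm V (it f (w j) x)) y‖ := norm_nonneg _
  have hG0 : 0 ≤ ‖deriv (GJ f R x (H j) (w j)) ζ‖ := norm_nonneg _
  refine ⟨?_, ?_, ?_⟩
  · have h1 := fOUT_lin (φ := rm V c) (B := C1 * cr V c) hRMc.dif (fun u hu => (hKO2 u hu).1) (u := cx V c z)
      (by rw [← hzp]; exact hpd2)
    rw [hzr, hRMc.val, ← hzp] at h1
    have h2 : C1 * cr V c * pd V c z ≤ C1 * cr V c * ε :=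
      mul_le_mul_of_nonneg_left hpdc.le (mul_nonneg (by linarith) hcr0.le)
    calc ‖z - c‖ ≤ C1 * cr V c * pd V c z := h1
      _ ≤ C1 * cr V c * ε := h2
      _ = C1 * ε * cr V c := by ring
  · rw [hder, norm_mul]
    have h1 : cr V z ≤ ‖deriv (rm V (it f (w j) x)) y‖ := by
      rw [hcrz]
      calc ‖deriv (rm V (it f (w j) x)) y‖ * (1 - ‖y‖ ^ 2) ≤ ‖deriv (rm V (it f (w j) x)) y‖ * 1 :=
            mul_le_mul_of_nonneg_left hy3 hD0
        _ = _ := mul_one _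
    have h2 : cr V c ≤ C1 * ‖deriv (rm V (it f (w j) x)) y‖ :=
      hc2.trans (mul_le_mul_of_nonneg_left h1 (by linarith))
    have h3 : C1 ≤ C1 / (1 - ρ ^ 2) := by
      rw [le_div_iff₀ hρ1]
      nlinarith
    calc ‖deriv (GJ f R x (H j) (w j)) ζ‖ * cr V c
        ≤ ‖deriv (GJ f R x (H j) (w j)) ζ‖ * (C1 * ‖deriv (rm V (it f (w j) x)) y‖) :=
          mul_le_mul_of_nonneg_left h2 hG0
      _ = C1 * (‖deriv (rm V (it f (w j) x)) y‖ * ‖deriv (GJ f R x (H j) (w j)) ζ‖) := by ring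
      _ ≤ _ := mul_le_mul_of_nonneg_right h3 (mul_nonneg hD0 hG0)
  · rw [hder, norm_mul]
    have h1 : ‖deriv (rm V (it f (w j) x)) y‖ * (1 - ρ ^ 2) ≤ cr V z := by
      rw [hcrz]
      exact mul_le_mul_of_nonneg_left hy2 hD0
    have h2 : ‖deriv (rm V (it f (w j) x)) y‖ ≤ C1 / (1 - ρ ^ 2) * cr V c := by
      rw [div_mul_eq_mul_div, le_div_iff₀ hρ1]
      exact h1.trans hc1
    calc ‖deriv (rm V (it f (w j) x)) y‖ * ‖deriv (GJ f R x (H j) (w j)) ζ‖
        ≤ C1 / (1 - ρ ^ 2) * cr V c * ‖deriv (GJ f R x (H j) (w j)) ζ‖ :=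
          mul_le_mul_of_nonneg_right h2 hG0
      _ = _ := by ring

end PL
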